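import Mathlib
import Pool.Agent.H.MP_317a58_an.Renorm

/-!
Every Banach space with a Schauder basis has an equivalent norm in which the basis constants of
all Schauder bases are bounded away from `1` (and at least one of them is finite).

The new unit ball is (the bipolar of) a set with uniformly large facets, whose interiors contain
points of the planes spanned by `e n`, `e (n+1)`, and with uniformly sharp corners `e m`.  A finite
rank projection of norm close to `1` which nearly fixes `e n`, `e (n+1)` must then nearly fix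
`e (n+2)`, with an error which does not depend on the previous one.
-/

open Filter Topology
open scoped ENNReal
open Pool.Agent.H.MP_317a58_an.Renorm

namespace Pool.Agent.Results.MP_317a58_an.RenormIndex

universe u v

section Defs

variable {𝕜 : Type u} [RCLike 𝕜] {E : Type v} [NormedAddCommGroup E] [NormedSpace 𝕜 E]

/-- The basis constant of the Schauder basis `b` with respect to the (semi)norm `N`: the supremum,
over all the projections `s_n = b.proj n` (first `n` terms of the expansion) and all `x` with `N x ≤ 1`, of `N (s_n x)`. -/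
noncomputable def basisConstant (N : Seminorm 𝕜 E) (b : SchauderBasis 𝕜 E) : ℝ≥0∞ :=
  ⨆ (n : ℕ) (x : E) (_ : N x ≤ 1), ENNReal.ofReal (N (b.proj n x))

/-- The index `Γ` of the space with respect to `N`: the supremum of the inverses of the basis
constants of all Schauder bases (it is `0` if there is no Schauder basis). -/
noncomputable def index (N : Seminorm 𝕜 E) : ℝ≥0∞ :=
  ⨆ b : SchauderBasis 𝕜 E, (basisConstant N b)⁻¹

end Defs


/-- **Every Banach space with a Schauder basis (real or complex scalars) has an equivalent norm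
whose index is strictly between `0` and `1`.** -/
theorem result {𝕜 : Type u} [RCLike 𝕜] {E : Type v} [NormedAddCommGroup E] [NormedSpace 𝕜 E]
    [CompleteSpace E] (hE : Nonempty (SchauderBasis 𝕜 E)) :
    ∃ N : Seminorm 𝕜 E, (∃ c C : ℝ, 0 < c ∧ ∀ x : E, c * ‖x‖ ≤ N x ∧ N x ≤ C * ‖x‖) ∧
      0 < index N ∧ index N < 1 := by
  obtain ⟨b₀⟩ := hE
  obtain ⟨e, φ, K, h⟩ := exists_sys b₀
  have hK := h.hK
  set ε : ℝ := 1 / (16000000 * K ^ 3) with hε
  have hε0 : 0 < ε := by positivity
  have hεK : ε * (80000 * K ^ 2) ≤ 1 / (200 * K) := by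
    rw [hε]
    apply le_of_eq
    field_simp
    norm_num
  refine ⟨Q h, ⟨1 / 2, 5 / 2 * K, by norm_num, fun x => ⟨norm_le_q h x, q_le_norm h x⟩⟩, ?_, ?_⟩
  · -- the given basis has finite basis constant
    obtain ⟨C, hC⟩ := b₀.exists_norm_proj_le
    have hfin : basisConstant (Q h) b₀ ≤ ENNReal.ofReal (5 / 2 * K * (C * 2)) := by
      refine iSup_le fun n => iSup_le fun x => iSup_le fun hx => ENNReal.ofReal_le_ofReal ?_
      rw [Q_apply] at hx ⊢
      have h1 := q_le_norm h (b₀.proj n x)
      have h2 := (b₀.proj n).le_of_opNorm_le (hC n) x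
      have h3 := norm_le_q h x
      have hC0 : 0 ≤ C := (norm_nonneg _).trans (hC 0)
      have h4 : ‖x‖ ≤ 2 := by linarith
      calc q e φ (b₀.proj n x) ≤ 5 / 2 * K * ‖b₀.proj n x‖ := h1
        _ ≤ 5 / 2 * K * (C * ‖x‖) := by gcongr
        _ ≤ 5 / 2 * K * (C * 2) := by gcongr
    have h1 : 0 < (basisConstant (Q h) b₀)⁻¹ :=
      ENNReal.inv_pos.mpr (ne_top_of_le_ne_top ENNReal.ofReal_ne_top hfin)
    exact h1.trans_le (le_iSup (fun b : SchauderBasis 𝕜 E => (basisConstant (Q h) b)⁻¹) b₀)
  · -- all basis constants are at least `1 + ε`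
    have hall : ∀ b : SchauderBasis 𝕜 E, ENNReal.ofReal (1 + ε) ≤ basisConstant (Q h) b := by
      intro b
      by_contra hlt
      rw [not_le] at hlt
      have hbound : ∀ n x, q e φ (b.proj n x) ≤ (1 + ε) * q e φ x := by
        intro n x
        have hle : ∀ y, q e φ y ≤ 1 → q e φ (b.proj n y) ≤ 1 + ε := by
          intro y hy
          have h1 : ENNReal.ofReal ((Q h) (b.proj n y)) ≤ basisConstant (Q h) b :=
            le_iSup_of_le n (le_iSup_of_le y (le_iSup_of_le (by simpa using hy) le_rfl))
          have h2 := h1.trans_lt hlt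
          rw [ENNReal.ofReal_lt_ofReal_iff (by positivity)] at h2
          exact h2.le
        rcases eq_or_ne x 0 with rfl | hx
        · have h1 : q e φ (0 : E) = 0 := by
            have := map_zero (Q h)
            rwa [Q_apply] at this
          rw [map_zero, h1, mul_zero]
        · have hq0 : 0 < q e φ x := by
            have h1 := norm_le_q h x
            have h2 : 0 < ‖x‖ := norm_pos_iff.mpr hx
            linarith
          set c := q e φ x with hc
          have hcn : ‖(c : 𝕜)⁻¹‖ = c⁻¹ := by
            rw [norm_inv, RCLike.norm_ofReal, abs_of_pos hq0]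
          have hsm : ∀ y, q e φ ((c : 𝕜)⁻¹ • y) = c⁻¹ * q e φ y := by
            intro y
            have := map_smul_eq_mul (Q h) ((c : 𝕜)⁻¹) y
            rwa [Q_apply, Q_apply, hcn] at this
          have h1 := hle ((c : 𝕜)⁻¹ • x) (by
            rw [hsm, ← hc, inv_mul_cancel₀ hq0.ne'])
          rw [map_smul, hsm, inv_mul_le_iff₀ hq0] at h1
          linarith
      have hlim0 := SchauderBasis.tendsto_proj b (e 0)
      have hlim1 := SchauderBasis.tendsto_proj b (e 1)
      have hpos : 0 < 1 / (200 * K) := by positivity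
      have ev0 := (Metric.tendsto_nhds.mp hlim0) _ hpos
      have ev1 := (Metric.tendsto_nhds.mp hlim1) _ hpos
      obtain ⟨n, hn0, hn1⟩ := (ev0.and ev1).exists
      rw [dist_eq_norm] at hn0 hn1
      refine no_proj h (b.proj n) (fun x => ?_) ?_ hε0.le hεK (hbound n) hn0.le hn1.le
      · rw [SchauderBasis.proj_comp, min_self]
      · rw [SchauderBasis.range_proj_eq_span]
        exact FiniteDimensional.span_of_finite 𝕜 ((Finset.finite_toSet _).image _)
    have h1 : index (Q h) ≤ (ENNReal.ofReal (1 + ε))⁻¹ :=
      iSup_le fun b => ENNReal.inv_le_inv.mpr (hall b)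
    refine h1.trans_lt ?_
    rw [ENNReal.inv_lt_one]
    rw [ENNReal.one_lt_ofReal]
    linarith

end Pool.Agent.Results.MP_317a58_an.RenormIndex
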